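import Pool.Agent.X180.OK.Tors
import Pool.Agent.X180.Abn.Sys1

/-!
# Abundance for effective divisors on varieties with torsion canonical class over images of linear
systems

Let `X` be a normal projective variety with `m₀ K_X ~ 0`, `m₀ ≥ 1`, and `L` an effective divisor on `X`.
A prime divisor of `X` is *relevant* if it is not in the support of `L`, and not in the base locus of
all `m (K_X + L + η A)`, for small `η ≥ 0` (`A` a given effective divisor; so the divisors in the
diminished base locus of `L` may be neglected; if `L` is nef and `A` is ample, all prime divisors of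
`X ∖ Supp L` are relevant). Let

  `X ⇢ W_l ⇢ ... ⇢ W_1 ⇢ W_0`, `l ≥ 0`,

be dominant rational maps. Suppose:

* (the base) `W_0`, of dimension `≥ 1`, is the image of a linear system `V` of dimension `n` on `X`, and
  there are members `D_i` of `V`, given by elements `φ i`, which span `V` such that `V` is not the
  direct sum of two nonzero subspaces which together contain all the `φ i`, and if a relevant prime
  divisor `P` is in one of the `D_i` then the multiplicities of `P` in some `D_i` and `D_i'` differ by
  at least `t`, where `2 t > R (n - dim W_0 + 1) (n - dim W_0 + 2)`, `R = n + 2` (and even `R = n + 1`,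
  if there are `n + 3` different members `D_i`). The `D_i` are in arbitrary position otherwise; some of
  them may be supported on `Supp L`, then there is no condition;
* (the steps of the tower) for each `i < l` the fibres of `W_{i+1}` over `W_i`, of dimension `e_i`,
  *with the multiplicities of the fibres of `X ∖ Supp L` over `W_{i+1}`*, correspond to the product of
  one orbifold `V_i` (which does not depend on the point of `W_i`) and of moving log canonical
  arrangements: there are a variety `X'` with a generically finite map `X' ⇢ X` (ramified anywhere)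
  and a rational map of `X'` to `V_i × P^{r_1} × ... × P^{r_c}`, `r_j ≥ 1`, which is dominant on the
  fibres of `X'` over `W_i`, and whose fibres (over `W_i`) are, up to finite maps, the fibres of
  `X' ⇢ W_{i+1}`; `a (p) ≥ 0` is the log discrepancy of an orbifold divisor at the places `p` of `V_i`
  in the image of the relevant prime divisors, and the Kodaira dimension of `(V_i, a)` is at least
  `h_i`; in each `P^{r_j}` there are any hyperplanes `A j k = 0`, in any position, which move with the
  point of a variety finite over `W_i`, with weights `w j k ≥ 0`, such that the arrangement is log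
  canonical (the sum of the weights of hyperplanes with a common point is at most the codimension of
  their intersection) and `∑ k, w j k ≥ r_j + 1`. Let `Q` be a place of the function field of `X'` over
  a relevant prime divisor which dominates `W_i` but not `W_{i+1}`, with ramification index `ε`, let
  `e j k` be the multiplicities of the hyperplanes at `Q`, and `R = ∑ (mx_j - ∑ w j k e j k)`, where
  `mx_j` is the greatest sum of `r_j + 1` of the `e j k` whose hyperplanes have no common point. Then
  `ε ≤ ν a (p) + R` if `Q` lies over the place `p` of `V_i`, with ramification index `ν`; and if `Q`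
  dominates `V_i` then `ε ≤ R`, or `ε ≤ 1` if all `e j k` are zero. Suppose that `h_i` plus the sum of
  the `r_j` with `∑ k, w j k > r_j + 1` is `e_i`.
* (the fibres of `X` over `W_l`) there is a correspondence `X'` as above between `X` and a relative
  product `P^{r_1} × ... × P^{r_c}` over `W_l` (`c = 0` is allowed), with log canonical moving hyperplane
  arrangements with weights in `[0, 1]` and `ε ≤ R` (`ε ≤ 1`, if all `e j k` are zero) at the relevant
  prime divisors which dominate `W_l`; and at the places over the prime divisors of the product
  `K_X + L` is at most the pull back of the log canonical divisor of the arrangement (`Cor`).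

Then `∑ k, w j k ≥ r_j + 1` for all `j` (for the fibres over `W_l`), and

  `κ(K_X + L') = ν(K_X + L') = dim W_l + λ`

for all effective `ℚ`-divisors `L'` with `Supp L' = Supp L`, where `λ` is the sum of the `r_j` with
`∑ k, w j k > r_j + 1`. As `m₀ K_X ~ 0`, this means that `κ(L') = ν(L') = dim W_l + λ`.

Relation with the question: let `X` be klt with `K_X ~ 0` over `ℚ` and `L'` a nef effective divisor on
`X`, `L` a small multiple of `L'` with these properties. By the theorem `κ(L') = ν(L')`, so `K_X + t L'`
is nef and abundant, and `(X, t L')` is klt for small `t > 0`; so `L'` is semiample (Kawamata 1985).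

Notation: `X` is given by the homogeneous coordinates `y` of its generic point, with values in the
function field `K`; prime divisors are places `P` of `K`, `P.ord` is the order along `P`. `E i` is the
function field of `W_i`. `kodairaDim` and `numericalDim` are the literal definitions of the Kodaira
and of the numerical dimension of `K_X + L` by means of the dimensions of the spaces of sections of
`m (K_X + L)` and of `m (K_X + L) + A`. Definitions: `Pool/Agent/X180/OK/Defs` (`TorsionCanonical`,
`SameSupport`), `OJ/Defs` (`JointFibres`, `IsTower`), `OP/Defs`, `AbDefs`.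

Proof: the theorem is deduced from a theorem on pairs `(X, Δ)`, for `Δ = Γ = L`, where `Γ` is a divisor
along which there are no conditions if `K_X + Δ - Γ` is pseudo-effective: here it is trivial. The
forms of a step are products of the pull backs of the forms of `V_i`, of determinants of logarithmic
derivatives of the linear forms, and of one joint Wronskian of the coordinates of `V_i` and of the
`P^{r_j}` (`Pool.Agent.X180.OJ.joint_est`). They are multiplied along adapted regular vector fields,
and with products of generalised Wronskians of the `φ i` (`Pool.Agent.TH585.SV.lin_fib`, starting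
library).
-/

set_option autoImplicit false

open FF Pool.Agent.W602.GT Pool.Agent.Y172 Pool.Agent.Y191
open Pool.Agent.X180.OP (Fibres Relevant big)
open Pool.Agent.X180.OJ (IsTower)
open Pool.Agent.X180.OK

namespace Pool.Agent.Results.MP_cda8c3_ag.ComplementsOverLinearSystems

section

variable {K : Type} [Field K] [Algebra ℂ K]

/-- The function field of the image of the rational map which is given by the linear system `V`: the
field generated by the quotients of the members. -/
noncomputable def ImageField (V : Submodule ℂ K) : IntermediateField ℂ K :=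
  IntermediateField.adjoin ℂ {y : K | ∃ f ∈ V, ∃ g ∈ V, y = f / g}

/-- `V` is not the direct sum of two nonzero subspaces which together contain all the `φ i`. -/
def Indecomposable {q : ℕ} (V : Submodule ℂ K) (φ : Fin q → K) : Prop :=
  ∀ V₁ V₂ : Submodule ℂ K, V₁ ⊔ V₂ = V → V₁ ⊓ V₂ = ⊥ → (∀ i, φ i ∈ V₁ ∨ φ i ∈ V₂) →
    V₁ = ⊥ ∨ V₂ = ⊥

/-- There are `r` members `φ i` of which no two are proportional. -/
def Different (r : ℕ) {q : ℕ} (φ : Fin q → K) : Prop :=
  ∃ τ : Fin r → Fin q, ∀ i j, i ≠ j → ∀ t : ℂ, φ (τ i) ≠ t • φ (τ j)

/-- The condition on the multiplicities: if the prime divisor `P` of `X` in `S` is a component of one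
of the divisors `D i` (the order of `φ i` at `P` is not the minimum `a` of the orders of the members
of `V`), then for some members `D i`, `D i'` the difference of the multiplicities of `P` is at least
`t`. -/
def SystemMultiplicities (S : Set (Place ℂ K)) {q : ℕ} (V : Submodule ℂ K)
    (φ : Fin q → K) (t : ℝ) : Prop :=
  ∀ P ∈ S, ∀ a : ℤ, (∀ f ∈ V, f = 0 ∨ a ≤ P.ord f) →
    (∃ f ∈ V, f ≠ 0 ∧ P.ord f = a) → (∃ i, P.ord (φ i) ≠ a) →
    ∃ i i', t ≤ ((P.ord (φ i) - P.ord (φ i') : ℤ) : ℝ)

end

/-- **Abundance.** Let `X` be a normal projective variety with `m₀ K_X ~ 0`, `L` and `A` effective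
`ℚ`-divisors, `V` a linear system on `X` of dimension `n` whose rational map has the image `W_0`,
`1 ≤ D 0 = dim W_0 ≤ n`, and `X ⇢ W_l ⇢ ... ⇢ W_0` a tower of dominant rational maps whose steps are as
in `JointFibres`, of dimensions and log Kodaira dimensions `e i`. Let `φ i` be nonzero members which
span `V`, such that `V` is not the direct sum of two nonzero subspaces which together contain all the
`φ i`. Let `R = n + 2`, or `R = n + 1` if there are `n + 3` different members `φ i`, and
`t > R (n - D 0 + 1) (n - D 0 + 2) / 2` a number for which the condition on the multiplicities holds.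
Let the fibres of `X` over `W_l` be as in `Fibres`; all this for the relevant prime divisors of `X`,
which are not in the support of `L`. Then `r j + 1 ≤ ∑ i, w j i` for all `j`, and the Kodaira dimension
and the numerical dimension of `K_X + L'` are `dim W_l` plus the sum of the `r j` with
`r j + 1 < ∑ i, w j i`, for all effective `ℚ`-divisors `L'` with the same support as `L`. -/
theorem result {n q : ℕ} (K : Type) [Field K] [Algebra ℂ K] (N l c m₀ : ℕ)
    (E : Fin (l + 1) → IntermediateField ℂ K) (D : Fin (l + 1) → ℕ) (e : Fin l → ℕ)
    (hd : 1 ≤ D 0) (hdn : D 0 ≤ n) (r s : Fin c → ℕ) (y : Fin (N + 1) → K)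
    (L A : Place ℂ K → ℚ) (hy : NormalModel y)
    (htr : Algebra.trdeg ℂ K = (D (Fin.last l) + ∑ j, r j : ℕ))
    (hK : TorsionCanonical y (D (Fin.last l) + ∑ j, r j) m₀) (hL : Effective y L)
    (hA : Effective y A)
    (V : Submodule ℂ K) (hn : Module.finrank ℂ V = n + 1) (hE0 : E 0 = ImageField V)
    (hT : IsTower (Relevant y (D (Fin.last l) + ∑ j, r j) L L A) (fun _ => 0) E D e e)
    (φ : Fin q → K) (hφ0 : ∀ i, φ i ≠ 0) (hφ : Submodule.span ℂ (Set.range φ) = V)
    (hI : Indecomposable V φ) (R : ℕ) (hR : R = n + 2 ∨ (Different (n + 3) φ ∧ R = n + 1)) (t : ℝ)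
    (ht : (R : ℝ) * (((n : ℝ) - D 0 + 1) * ((n : ℝ) - D 0 + 2)) < 2 * t)
    (hm : SystemMultiplicities (Relevant y (D (Fin.last l) + ∑ j, r j) L L A) V φ t)
    (w : ∀ j, Fin (s j) → ℚ)
    (hF : Fibres y (D (Fin.last l) + ∑ j, r j) L
      (Relevant y (D (Fin.last l) + ∑ j, r j) L L A) (E (Fin.last l)) r s w) :
    (∀ j, (r j + 1 : ℚ) ≤ ∑ i, w j i) ∧ ∀ L', SameSupport y L L' →
      kodairaDim y (D (Fin.last l) + ∑ j, r j) L' =
        ((D (Fin.last l) + big r s w : ℕ) : WithBot ℕ) ∧
      ∀ A', Effective y A' → Integral y A' →
        numericalDim y (D (Fin.last l) + ∑ j, r j) L' A' =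
          ((D (Fin.last l) + big r s w : ℕ) : EReal) := by
  have hn' : D (Fin.last l) + ∑ j, r j = D 0 + (∑ i, e i + ∑ j, r j) := by
    rw [Pool.Agent.X180.TP.dims fun i => (hT.2 i).2.1, add_assoc]
  have hV : Algebra.trdeg ℂ (ImageField V) = (D 0 : ℕ) := by
    rw [← hE0]
    exact hT.1 0
  have hK' : Algebra.trdeg ℂ K = (D 0 + (∑ i, e i + ∑ j, r j) : ℕ) := by
    rw [htr, hn']
  have hz : Pool.Agent.X180.Iso.hor (ImageField V) (fun _ : Place ℂ K => (0 : ℝ)) = fun _ => 0 := by
    funext P
    unfold Pool.Agent.X180.Iso.hor
    split_ifs <;> rfl
  refine of_abundance_tors (tow_triv hy htr hK hL hA hT hF fun lam' h0 => ?_)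
  rw [hE0] at h0
  have h0' : Pool.Agent.X180.Tow.HasForms (D 0 + (∑ i, e i + ∑ j, r j))
      (Relevant y (D (Fin.last l) + ∑ j, r j) L L A)
      (Pool.Agent.X180.Iso.hor (ImageField V) fun _ => 0) (ImageField V)
      (∑ i, e i + ∑ j, r j) lam' := by
    rw [hz]
    exact h0
  exact (Pool.Agent.X180.Iso.sys_pair (c := 1) (δ := fun _ => 0) hd hdn hK' hV hφ0 hφ
    (Pool.Agent.X180.Abn.dcp_one hφ hn) (Pool.Agent.X180.Abn.not_dcp hI)
    (hR.imp (fun h => by omega) fun h => ⟨rfl, h⟩) ht.le
    (fun _ _ => le_rfl) (fun P hPX _ a ha hb hc => by
      obtain ⟨i, i', h⟩ := hm P hPX a ha hb hc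
      exact ⟨i, i', rfl, by simpa using h⟩) h0').2 ht (D 0) (by omega)

end Pool.Agent.Results.MP_cda8c3_ag.ComplementsOverLinearSystems
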