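import Pool.Agent.X324.SA.Crit

set_option autoImplicit false

/-!
# Nef divisors on klt varieties with torsion canonical class: reduction to quotients of the factors

A klt variety `X` with `K_X ~_ℚ 0` has a finite covering, étale in codimension one, which is the product
of an abelian variety `A` and of Calabi–Yau and irreducible symplectic varieties `F i` (the singular
Beauville–Bogomolov decomposition); so `X = (A × F) / G`, `F = ∏ F i`, for a finite group `G`, which
permutes the factors `F i`. Let `G i` be the stabiliser of `F i`; it acts on `F i`, and the divisors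
on `F i / G i` are up to multiples the classes of `F i` which are invariant under `G i`. The theorem
says: nef divisors are semiample on `X` if and only if `H^1(X, O_X) = 0` and nef divisors are semiample
on all the quotients `F i / G i`. So the problem for `X` is equivalent to the problem for the `F i / G i`.
The second part is unconditional: if the Picard number of each quotient `F i / G i` is one and
`H^1(X, O_X) = 0`, then nef divisors are semiample on `X`.

The theorem holds for all quotients `X = (A × F) / G` such that `G` permutes the factors; the action of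
`G` on the product may have fixed points, and there is no condition on the canonical class. Here `F` is
any product of normal projective `ℚ`-factorial varieties `F i` such that `Cl(F)` is free and the direct
sum of the `Cl(F i)`; it is given by its Cox ring, which need not be finitely generated.

The proof of the converse: a nef class `β` of `F i` which is invariant under `G i` gives an invariant
nef class of `F`, the sum of the translates of `β`; a multiple of it is the degree of a nef sheaf on `X`.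
If this sheaf is semiample, then so is the invariant class on `F`, and also its component, a multiple
of `β`.

`Cl`, `Semistable`, `SemiampleF`, `Induces`, `Grp`, `base`, `IsQuotient`, `Sheaf`, `IsClass`, `N1`,
`semiample`, `coneHull` and `nefCone` are defined in `Pool.Agent.X324.CF.Defs`; `IsCoxRing`,
`IsProduct`, `part`, `real` and `nefF` in `Pool.Agent.X324.CG.Defs`; `IsOf`, `Permutes`, `InvAt` and
`RankOneAt` in `Pool.Agent.X324.SA.CritDefs`; `HOneZero` in `Pool.Agent.TH735.AQ.Defs`.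
-/

namespace Pool.Agent.Results.MP_cda8c3_ag.InvariantNefClasses

open Pool.Agent.X324.CF
open Pool.Agent.X324.CG (IsCoxRing IsProduct part real nefF)
open Pool.Agent.X324.SA (IsOf InvAt Permutes RankOneAt)
open Pool.Agent.TH735.AQ (HOneZero)
open Pool.Agent.W594.SYZ2 Pool.Agent.X302.SA

/-- The space `N^1(X)`. (In the absolute case the linear subspace `E` of `V` of the general
definitions is `V` itself, embedded by the identity map.) -/
abbrev NS {V R : Type*} [NormedAddCommGroup V] [NormedSpace ℂ V] [CommRing R] [Algebra ℂ R] {ρ : ℕ}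
    (𝒜 : Cl ρ → Submodule ℂ R) (Γ : Grp V R) : Type _ :=
  N1 𝒜 Γ (LinearMap.id : V →ₗ[ℂ] V)

/-- The nef cone of `X`. -/
def nef {V R : Type*} [NormedAddCommGroup V] [NormedSpace ℂ V] [CommRing R] [Algebra ℂ R] {ρ : ℕ}
    (𝒜 : Cl ρ → Submodule ℂ R) (Γ : Grp V R) (u : Cl ρ) : Set (NS 𝒜 Γ) :=
  nefCone 𝒜 Γ LinearMap.id u

/-- The sheaf `𝓛` is nef: its class in `N^1(X)` is in the nef cone. -/
def IsNef {V R : Type*} [NormedAddCommGroup V] [NormedSpace ℂ V] [CommRing R] [Algebra ℂ R]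
    {ρ : ℕ} {𝒜 : Cl ρ → Submodule ℂ R} {Γ : Grp V R} (u : Cl ρ) (𝓛 : Sheaf 𝒜 Γ) : Prop :=
  ∃ x : NS 𝒜 Γ, IsClass LinearMap.id 𝓛 (val x) ∧ x ∈ nef 𝒜 Γ u

/-- The statement of the problem for the quotient `F i / G i`, where `G i` is the stabiliser of `F i`:
nef classes of `F i` which are invariant under `G i` are semiample. -/
def NefIsSemiampleAt {V R κ : Type*} [NormedAddCommGroup V] [NormedSpace ℂ V] [CommRing R]
    [Algebra ℂ R] {ρ : ℕ} (𝒜 : Cl ρ → Submodule ℂ R) (u : Cl ρ) (c : Fin ρ → κ) (Γ : Grp V R)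
    (i : κ) : Prop :=
  ∀ β, IsOf c i β → InvAt 𝒜 c Γ i β → real β ∈ nefF 𝒜 u c i → SemiampleF 𝒜 u β

/-- A line bundle on `V / Γ₀` whose pullback to `X` is semiample has a globally generated power. -/
theorem gg_of_semiample {V R : Type*} [NormedAddCommGroup V] [NormedSpace ℂ V]
    [CommRing R] [Algebra ℂ R] {ρ : ℕ} (𝒜 : Cl ρ → Submodule ℂ R) (u : Cl ρ)
    (hpt : ∃ p, Semistable 𝒜 u p)
    (hconst : ∀ r ∈ 𝒜 0, ∃ c : ℂ, r = algebraMap ℂ R c) (Γ : Grp V R) (P : LineBundle (base Γ))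
    (h : (Sheaf.ofLB P : Sheaf 𝒜 Γ).IsSemiample u) :
    ∃ N : ℕ, 1 ≤ N ∧ IsGloballyGenerated (P.pow N) := by
  obtain ⟨m, hm, h1⟩ := h
  obtain ⟨p, hp⟩ := hpt
  refine ⟨m, hm, fun v => ?_⟩
  obtain ⟨f, hf, hf0⟩ := h1 v p hp
  have hc : ∀ w, f w = algebraMap ℂ R (p (f w)) := by
    intro w
    have h2 := hf.mem w
    have h3 : m • (Sheaf.ofLB P : Sheaf 𝒜 Γ).deg = 0 := smul_zero m
    rw [h3] at h2
    obtain ⟨c, hc⟩ := hconst _ h2
    rw [hc, AlgHom.commutes]
    rfl
  refine ⟨fun w => p (f w), ⟨hf.holo p.toLinearMap, ?_⟩, hf0⟩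
  rintro ⟨γ, hγ⟩ w
  obtain ⟨δ, hδ, rfl⟩ := hγ
  have h4 := hf.eq ⟨δ, hδ⟩ w
  change p (f (δ.1 w)) = (P.pow m).e ⟨δ.1, _⟩ w * p (f w)
  change f (δ.1 w) = ((Sheaf.ofLB P : Sheaf 𝒜 Γ).e ⟨δ, hδ⟩ w) ^ m • δ.2 (f w) at h4
  rw [h4, hc w, AlgEquiv.commutes, map_smul, AlgHom.commutes]
  rfl

/-- Let `X = (V × F) / Γ` be a quotient such that `Γ` permutes the factors `F i` of `F`. Then nef sheaves
on `X` are semiample if and only if `H^1(X, O_X) = 0` and on each factor `F i` the nef classes which are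
invariant under the stabiliser of `F i` are semiample. In particular nef sheaves on `X` are semiample if
`H^1(X, O_X) = 0` and the groups of invariant classes of the factors have rank one. -/
theorem result {V R κ : Type*} [NormedAddCommGroup V] [NormedSpace ℂ V] [FiniteDimensional ℂ V]
    [CommRing R] [IsDomain R] [Algebra ℂ R] [DecidableEq κ] [Fintype κ] {ρ : ℕ}
    (𝒜 : Cl ρ → Submodule ℂ R) [GradedAlgebra 𝒜] (u : Cl ρ) (hF : IsCoxRing 𝒜 u)
    (hconst : ∀ r ∈ 𝒜 0, ∃ c : ℂ, r = algebraMap ℂ R c)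
    (c : Fin ρ → κ) (hprod : IsProduct 𝒜 c)
    (Γ : Grp V R) (hX : IsQuotient 𝒜 u Γ) (hperm : Permutes 𝒜 c Γ) :
    ((∀ 𝓛 : Sheaf 𝒜 Γ, IsNef u 𝓛 → 𝓛.IsSemiample u) ↔
      HOneZero (base Γ) ∧ ∀ i, NefIsSemiampleAt 𝒜 u c Γ i) ∧
    ((∀ i, RankOneAt 𝒜 c Γ u i) → HOneZero (base Γ) →
      ∀ 𝓛 : Sheaf 𝒜 Γ, IsNef u 𝓛 → 𝓛.IsSemiample u) := by
  have key : HOneZero (base Γ) → (∀ i, NefIsSemiampleAt 𝒜 u c Γ i) →
      ∀ 𝓛 : Sheaf 𝒜 Γ, IsNef u 𝓛 → 𝓛.IsSemiample u := by
    intro h01 hnef 𝓛 h𝓛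
    obtain ⟨x, ⟨⟨H, hH, h1⟩, h2⟩, hx⟩ := h𝓛
    have h2' : (val x).2 = real 𝓛.deg := funext h2
    obtain ⟨hform, hdeg⟩ := Pool.Agent.X324.SA.nef_sub hF hX hx
    have hn : Pool.Agent.W594.SYZ2.IsNefForm H := by
      intro v
      have h3 := hform v
      rw [h1] at h3
      exact h3
    refine Pool.Agent.X324.SA.semiample_of_nef hX h01 hH hn ?_
    refine Pool.Agent.X324.SA.semi_of_parts (c := c) fun i => hnef i _
      (Pool.Agent.X324.CG.part_BL i _) (Pool.Agent.X324.SA.part_inv hperm 𝓛.inv i) ?_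
    have h3 := Pool.Agent.X324.SA.part_nef (u := u) hprod i hdeg
    have h5 : Pool.Agent.X324.CG.partR c i (real 𝓛.deg) = real (part c i 𝓛.deg) :=
      Pool.Agent.X324.CG.partR_rv c i 𝓛.deg
    rwa [h2', h5] at h3
  refine ⟨⟨fun h => ⟨?_, fun i β h1 h2 h3 => ?_⟩, fun h => key h.1 h.2⟩, fun hr h01 => ?_⟩
  · by_contra h01
    obtain ⟨P, hP, hne⟩ := exists_not_gg hX.torus h01
    obtain ⟨N, hN, hgg⟩ := gg_of_semiample 𝒜 u hF.point hconst Γ P
      (h (Sheaf.ofLB P) ⟨0, ⟨⟨_, Sheaf.ofLB_chern (Pool.Agent.TH735.AQ.chern_of_flat hP),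
        fun _ _ => rfl⟩, fun i => by simp [Sheaf.ofLB, val]; rfl⟩, subset_closure hull_zero⟩)
    exact hne N hN hgg
  · refine Pool.Agent.X324.SA.factor_semi (j := (LinearMap.id : V →ₗ[ℂ] V)) hF hprod hX hperm
      (fun 𝓛 x hc hx => ⟨1, one_pos, ?_⟩) h1 h2 h3
    rw [one_smul]
    exact Pool.Agent.X324.SA.deg_semi (h 𝓛 ⟨x, hc, hx⟩)
  · refine key h01 fun i β h1 h2 h3 => ?_
    obtain ⟨a, b, ha, hab⟩ := hr i β h1 h2
    exact Pool.Agent.X324.SA.semi_of_rank_one hF hprod h3 ha hab

end Pool.Agent.Results.MP_cda8c3_ag.InvariantNefClasses
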