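import Pool.Agent.X180.OK.Non

/-!
# Lower bounds for the Iitaka dimension of effective divisors on varieties with torsion canonical class

Let `X̄` be a normal projective variety with `m₀ K_X̄ ~ 0`, `m₀ ≥ 1`, `D` a reduced divisor, and
`X = X̄ ∖ D`. Let

  `X̄ ⇢ W_l ⇢ ... ⇢ W_1 ⇢ W_0`, `l ≥ 0`,

be dominant rational maps. Suppose:

* (the base) for some `m > 0` there are `m`-canonical forms on `W_0`, not all zero, with `k ≥ 0`
  algebraically independent ratios, with poles of order at most `m (1 - 1 / ν)` at the place `p` of the
  function field of `W_0`, if a prime divisor of `X` lies over `p`, with multiplicity `ν`, and of order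
  at most `m` if only components of `D` lie over `p`. That is, the logarithmic Kodaira dimension of
  the orbifold base of `X` over `W_0` is at least `k`. (`W_0` may be a point, then `k = 0`; `W_0` may be
  any rational variety.)
* (the steps of the tower) for each `i < l` the fibres of `W_{i+1}` over `W_i`, of dimension `e_i`,
  *with the multiplicities of the fibres of `X` over `W_{i+1}`*, correspond to the product of one
  orbifold `V_i` (which does not depend on the point of `W_i`) and of moving log canonical
  arrangements: there are a variety `X'` with a generically finite map `X' ⇢ X̄` (ramified anywhere)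
  and a rational map of `X'` to `V_i × P^{r_1} × ... × P^{r_c}`, `r_j ≥ 1`, which is dominant on the
  fibres of `X'` over `W_i`, and whose fibres (over `W_i`) are, up to finite maps, the fibres of
  `X' ⇢ W_{i+1}`; `a (p) ≥ 0` is the log discrepancy of an orbifold divisor at the places `p` of `V_i`
  in the image of the prime divisors of `X̄` (`a (p) = 0` is allowed: logarithmic poles), and the
  Kodaira dimension of `(V_i, a)` is at least `h_i`; in each `P^{r_j}` there are any hyperplanes
  `A j k = 0`, in any position, which move with the point of a variety finite over `W_i`, with weights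
  `w j k ≥ 0`, such that the arrangement is log canonical (the sum of the weights of hyperplanes with a
  common point is at most the codimension of their intersection) and `∑ k, w j k ≥ r_j + 1`. Let `Q` be
  a place of the function field of `X'` over a prime divisor of `X` which dominates `W_i` but not
  `W_{i+1}`, with ramification index `ε`, let `e j k` be the multiplicities of the hyperplanes at `Q`,
  and `R = ∑ (mx_j - ∑ w j k e j k)`, where `mx_j` is the greatest sum of `r_j + 1` of the `e j k`
  whose hyperplanes have no common point. Then `ε ≤ ν a (p) + R` if `Q` lies over the place `p` of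
  `V_i`, with ramification index `ν`; and if `Q` dominates `V_i` then `ε ≤ R`, or `ε ≤ 1` if all `e j k`
  are zero. (No condition at the components of `D`.) Let `λ_i` be the sum of `h_i` and of the `r_j`
  with `∑ k, w j k > r_j + 1`.
* (the fibres of `X̄` over `W_l`) there is a correspondence `X'` as above between `X̄` and a relative
  product `P^{r_1} × ... × P^{r_c}` over `W_l` (`c = 0` is allowed), with log canonical moving hyperplane
  arrangements with weights in `[0, 1]` (with any sum) and `ε ≤ R` (`ε ≤ 1`, if all `e j k` are zero)
  at the prime divisors of `X` which dominate `W_l`; and at the places over the prime divisors of the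
  product `K_X̄ + D` is at most the pull back of the log canonical divisor of the arrangement (`Cor`).
  Let `λ` be the sum of the `r_j` with `∑ k, w j k > r_j + 1`.

Then `∑ k, w j k ≥ r_j + 1` for all `j` (for the fibres over `W_l`), and

  `κ(K_X̄ + L) ≥ k + ∑ λ_i + λ`

for all effective `ℚ`-divisors `L` with `Supp L = D`. As `m₀ K_X̄ ~ 0`, this means that
`κ(L) ≥ k + ∑ λ_i + λ`.

Relation with the question: let `X̄` be klt with `K_X̄ ~ 0` over `ℚ` and `L` a nef effective divisor with
`Supp L = D`. If `ν(L) = k + ∑ λ_i + λ` then `κ(L) = ν(L)`, so that `K_X̄ + t L` is nef and abundant, and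
klt for small `t > 0`, and `L` is semiample (Kawamata 1985). The steps of the tower may have any log
Kodaira dimension, and the orbifold base any log Kodaira dimension `≥ 0`: for instance they may be
(orbifolds) of Calabi-Yau type, which contribute nothing to `κ(L)`.

Notation: `X̄` is given by the homogeneous coordinates `y` of its generic point, with values in the
function field `K`; prime divisors are places `P` of `K`, `P.ord` is the order along `P`; `Δ P` is the
coefficient of `P` in `D`. `E i` is the function field of `W_i`. Definitions:
`Pool/Agent/X180/OJ/Defs` (`JointFibres`, `IsTower`), `OJ/PairBaseDefs` (`BaseKodGe`),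
`OC/OpenDefs`, `OK/Defs` (`TorsionCanonical`, `SameSupport`), `OP/Defs`.

Proof: the forms of a step are products of the pull backs of the forms of `V_i`, of determinants of
logarithmic derivatives of the linear forms, and of one joint Wronskian of the coordinates of `V_i` and
of the `P^{r_j}`; locally, at `Q`, one compares with the arrangement enlarged by a simplex of
logarithmic coordinates of `V_i` at `p` (`Pool.Agent.X180.OJ.joint_est`). The coefficients are
algebraic over the function field of `W_{i+1}`, and their norms are estimated at the prime divisors of
`X̄` (`Pool.Agent.X180.OJ.joint_part`). The forms of the steps and of the base are multiplied along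
adapted regular vector fields. The products with powers of the `m₀`-canonical form without zeros are
sections of multiples of `K_X̄ + L`. If some `∑ k, w j k < r_j + 1` then the traces of the pull backs to `X'` of the sections of `m (K_X̄ + D)`
vanish, which is impossible as `K_X̄ + D ~ D` over `ℚ`.
-/

set_option autoImplicit false

open FF Pool.Agent.W602.GT Pool.Agent.Y172 Pool.Agent.Y191
open Pool.Agent.X180.OP (Fibres big)
open Pool.Agent.X180.OJ (IsTower BaseKodGe pair_base)
open Pool.Agent.X180.OC (IsCompactification openDivisors)
open Pool.Agent.X180.OK

namespace Pool.Agent.Results.MP_cda8c3_ag.KodairaBoundForComplements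

/-- **Lower bound.** Let `X̄` be a normal projective variety with `m₀ K_X̄ ~ 0` and `X = X̄ ∖ D`, and
`X ⇢ W_l ⇢ ... ⇢ W_0` a tower such that the orbifold base of `X` over `W_0` has logarithmic Kodaira
dimension at least `k`, the steps are as in `JointFibres`, of dimensions `e i` and log Kodaira
dimensions `lam i`, and the fibres of `X` over `W_l` are as in `Fibres`. Then `r j + 1 ≤ ∑ i, w j i` for
all `j`, and `κ(K_X̄ + L) ≥ k + ∑ i, lam i + big` for all effective `ℚ`-divisors `L` with the support
`D`. -/
theorem result (K : Type) [Field K] [Algebra ℂ K] (N l c k m₀ : ℕ)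
    (E : Fin (l + 1) → IntermediateField ℂ K) (D : Fin (l + 1) → ℕ) (e lam : Fin l → ℕ)
    (r s : Fin c → ℕ) (y : Fin (N + 1) → K) (Δ : Place ℂ K → ℚ)
    (hy : IsCompactification y (D (Fin.last l) + ∑ j, r j) Δ)
    (hK : TorsionCanonical y (D (Fin.last l) + ∑ j, r j) m₀) [Algebra.EssFiniteType ℂ (E 0)]
    (hY : BaseKodGe {P | IsPrimeDivisor y P} (fun P => (Δ P : ℝ)) (E 0) (D 0) k)
    (hT : IsTower {P | IsPrimeDivisor y P} (fun P => (Δ P : ℝ)) E D e lam)
    (w : ∀ j, Fin (s j) → ℚ)
    (hF : Fibres y (D (Fin.last l) + ∑ j, r j) Δ (openDivisors y Δ) (E (Fin.last l)) r s w) :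
    (∀ j, (r j + 1 : ℚ) ≤ ∑ i, w j i) ∧ ∀ L, SameSupport y Δ L →
      ((k + ∑ i, lam i + big r s w : ℕ) : WithBot ℕ) ≤
        kodairaDim y (D (Fin.last l) + ∑ j, r j) L := by
  have hn : D (Fin.last l) + ∑ j, r j = D 0 + (∑ i, e i + ∑ j, r j) := by
    rw [Pool.Agent.X180.TP.dims fun i => (hT.2 i).2.1, add_assoc]
  have hK' : Algebra.trdeg ℂ K = (D 0 + (∑ i, e i + ∑ j, r j) : ℕ) := by
    rw [← hn]
    exact hy.1.2.1
  exact tow_bound hy hK hT hF fun lam' h0 => pair_base hK' (hT.1 0)
    (fun P hP => Rat.cast_nonneg.2 (hy.1.2.2.1 P hP)) hY h0

end Pool.Agent.Results.MP_cda8c3_ag.KodairaBoundForComplements
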