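import Pool.Agent.TH735.AQ.Crit
import Pool.Agent.TH735.AQ.Nec
import Pool.Agent.TH128.SYZ.PsefConv

set_option autoImplicit false

/-!
# Abundance for pseudo-effective line bundles on quotients of complex tori with `H^1(X, O_X) = 0`

Let `X = V / Γ` be the quotient of a complex torus of any dimension (for instance of an abelian
variety) by any finite group. `X` has quotient singularities, hence it is klt, and `K_X` is torsion
if the group contains no reflections.

`latt`, `IsTorusQuotient` and `LineBundle` are defined in `Pool.Agent.W594.SYZ.Defs2`; `IsChernForm`,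
`IsNefForm`, `IsPositiveForm` and `Induces` in `Pool.Agent.W594.SYZ.TQDefs`; `HOneZero`,
`IsFibration` and `IsSemiample` in `Pool.Agent.TH735.AQ.Defs`; `TorsionOnKernel` in
`Pool.Agent.TH735.AQ.KerDefs`; `IsLogPsh` and `IsPseudoEffective` in `Pool.Agent.TH128.SYZ.PsefDefs`.
-/

namespace Pool.Agent.Results.MP_cda8c3_ag.TorusQuotients

open Pool.Agent.W594.SYZ2 Pool.Agent.TH735.AQ Pool.Agent.TH128.SYZ

/-- Let `X = V / Γ` be the quotient of a complex torus by a finite group.

(1) `H^1(X, O_X) = 0` if and only if all pseudo-effective (or: all nef) line bundles on `X` are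
semiample.
(2) For a line bundle `L` on `X` with Chern form `H` pseudo-effective is the same as nef; `L` is
semiample if and only if it is nef and some power of it is trivial on the subtorus given by the
kernel of `H`; and if `H^1(X, O_X) = 0` then the last condition holds for all nef `L`, and a power of
`L` is the pullback of an ample line bundle under the fibration `X → B`, `B` a torus quotient, given by
the linear map with the kernel `ker H`. -/
theorem result {V : Type*} [NormedAddCommGroup V] [NormedSpace ℂ V] [FiniteDimensional ℂ V]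
    (Γ : Subgroup (V ≃ᵃ[ℂ] V)) (hΓ : IsTorusQuotient Γ) :
    [HOneZero Γ,
      ∀ (L : LineBundle Γ) (H : V → V → ℂ), IsChernForm L H → IsNefForm H → IsSemiample L,
      ∀ (L : LineBundle Γ) (H : V → V → ℂ), IsChernForm L H → IsPseudoEffective L →
        IsSemiample L].TFAE ∧
    ∀ (L : LineBundle Γ) (H : V → V → ℂ), IsChernForm L H →
      (IsPseudoEffective L ↔ IsNefForm H) ∧
      (IsSemiample L ↔ IsNefForm H ∧ TorsionOnKernel L H) ∧
      (HOneZero Γ → IsNefForm H → ∃ (n : ℕ) (Δ : Subgroup ((Fin n → ℂ) ≃ᵃ[ℂ] (Fin n → ℂ)))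
        (π : V →ₗ[ℂ] (Fin n → ℂ)), (∀ v, π v = 0 ↔ ∀ w, H v w = 0) ∧
          IsFibration Γ Δ π ∧ Induces L Δ π) := by
  refine ⟨?_, fun L H hc => ⟨psef_iff_nef hΓ hc, ⟨fun hs => ⟨?_, torsion_of_semiample hΓ hc hs⟩,
    fun h => semiample_of_torsion hΓ hc h.1 h.2⟩, fun h01 hn => semiample hΓ h01 hc hn⟩⟩
  · tfae_have 1 → 2 := by
      intro h01 L H hc hn
      obtain ⟨n, Δ, π, -, h2, h3⟩ := semiample hΓ h01 hc hn
      exact ⟨n, Δ, π, h2, h3⟩
    tfae_have 2 → 3 := fun h L H hc hp => h L H hc ((psef_iff_nef hΓ hc).1 hp)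
    tfae_have 3 → 1 := by
      intro h
      by_contra h01
      obtain ⟨P, hP, hne⟩ := exists_flat hΓ h01
      have hc := chern_of_flat hP
      obtain ⟨n, Δ, π, h2, h3⟩ := h P _ hc ((psef_iff_nef hΓ hc).2 fun v => by simp)
      exact hne n Δ π h2 h3
    tfae_finish
  · obtain ⟨n, Δ, π, h2, h3⟩ := hs
    exact (nef_of_induces hΓ hc h2 h3).1

end Pool.Agent.Results.MP_cda8c3_ag.TorusQuotients
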